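import Pool.Agent.TH574.LogBM.Dim

set_option autoImplicit false

/-!
The B-inequality for even log-concave densities, for convex sets and densities with `n - 2`
reflections.
-/

open MeasureTheory Filter
open scoped Matrix Pointwise Topology ENNReal

namespace Pool.Agent.TH574.LogBM

open H354ZN

variable {n : ℕ}

/-- the measure with density `f` -/
noncomputable def mf (f : EuclideanSpace ℝ (Fin n) → ℝ) : Measure (EuclideanSpace ℝ (Fin n)) :=
  volume.withDensity (fun x => ENNReal.ofReal (f x))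

theorem b_SB (hn : 2 ≤ n) (b : Module.Basis (Fin n) ℝ (EuclideanSpace ℝ (Fin n)))
    {f : EuclideanSpace ℝ (Fin n) → ℝ} (hf : GoodDensity b f)
    {K : Set (EuclideanSpace ℝ (Fin n))} (hK : SB K) (rK : RefB b K) (p q : ℝ) {t : ℝ}
    (h0 : 0 < t) (h1 : t < 1) :
    mf f (Real.exp p • K) ^ (1 - t) * mf f (Real.exp q • K) ^ t ≤
      mf f (Real.exp ((1 - t) * p + t * q) • K) := by
  have h := mes_basis hn b hf (LCE_SB hK (Real.exp_pos p)) (LCE_SB hK (Real.exp_pos q))
    (RefB_smul rK) (RefB_smul rK) h0 h1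
  rw [(t_LCE t_HH n K p q t hK h0.le h1.le).2.2] at h
  unfold mf
  rwa [withDensity_apply', withDensity_apply', withDensity_apply']

theorem mf_abs {f : EuclideanSpace ℝ (Fin n) → ℝ} {S : Set (EuclideanSpace ℝ (Fin n))}
    (h : volume S = 0) : mf f S = 0 := by
  unfold mf
  exact withDensity_absolutelyContinuous _ _ h

theorem refl_cont (b : Module.Basis (Fin n) ℝ (EuclideanSpace ℝ (Fin n))) (j : Fin n) :
    Continuous fun x : EuclideanSpace ℝ (Fin n) => x - (2 * b.repr x j) • b j := by
  have h1 : Continuous fun x : EuclideanSpace ℝ (Fin n) => b.repr x j := by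
    have : Continuous (b.coord j) := LinearMap.continuous_of_finiteDimensional _
    exact this
  exact continuous_id.sub ((continuous_const.mul h1).smul continuous_const)

theorem mf_closure {f : EuclideanSpace ℝ (Fin n) → ℝ} {S : Set (EuclideanSpace ℝ (Fin n))}
    (hS : Convex ℝ S) (c : ℝ) : mf f (c • S) = mf f (c • closure S) := by
  have h1 : closure (c • S) =ᵐ[volume] c • S := by
    have h2 : volume (frontier (c • S)) = 0 := (hS.smul c).addHaar_frontier volume
    have h3 : closure (c • S) \ (c • S) ⊆ frontier (c • S) := by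
      intro x hx
      exact ⟨hx.1, fun h => hx.2 (interior_subset h)⟩
    have h4 : volume (closure (c • S) \ (c • S)) = 0 := measure_mono_null h3 h2
    refine ((LE.le.eventuallyLE (subset_closure : c • S ⊆ closure (c • S))).antisymm ?_).symm
    rw [ae_le_set]; exact h4
  have h5 : c • closure S = closure (c • S) := by
    rcases eq_or_ne c 0 with h | h
    · subst h
      rcases S.eq_empty_or_nonempty with hE | hE
      · rw [hE]; simp
      · rw [Set.zero_smul_set hE, Set.zero_smul_set hE.closure]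
        exact (isClosed_singleton (x := (0 : EuclideanSpace ℝ (Fin n)))).closure_eq.symm
    · exact (closure_smul₀' h S).symm
  rw [h5]
  have h6 : mf f (closure (c • S)) = mf f (c • S) := by
    apply measure_congr
    exact (withDensity_absolutelyContinuous _ _).ae_eq h1
  exact h6.symm

theorem b_bdd (hn : 2 ≤ n) (b : Module.Basis (Fin n) ℝ (EuclideanSpace ℝ (Fin n)))
    {f : EuclideanSpace ℝ (Fin n) → ℝ} (hf : GoodDensity b f)
    {K : Set (EuclideanSpace ℝ (Fin n))} (vK : Convex ℝ K) (bK : Bornology.IsBounded K)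
    (sK : ∀ x ∈ K, -x ∈ K) (rK : RefB b K) (p q : ℝ) {t : ℝ}
    (h0 : 0 < t) (h1 : t < 1) :
    mf f (Real.exp p • K) ^ (1 - t) * mf f (Real.exp q • K) ^ t ≤
      mf f (Real.exp ((1 - t) * p + t * q) • K) := by
  rcases eq_or_ne (volume K) 0 with h | h
  · have h2 : volume (Real.exp p • K) = 0 := by
      rw [Measure.addHaar_smul, h, mul_zero]
    rw [mf_abs h2, ENNReal.zero_rpow_of_pos (by linarith), zero_mul]
    exact zero_le
  have h3 := (t_CLB n K vK bK sK (pos_iff_ne_zero.mpr h)).1
  have h4 : RefB b (closure K) := fun j hj x hx =>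
    map_mem_closure (f := fun x => x - (2 * b.repr x j) • b j) (refl_cont b j) hx
      (fun z hz => rK j hj z hz)
  rw [mf_closure vK, mf_closure vK, mf_closure vK]
  exact b_SB hn b hf h3 h4 p q h0 h1

theorem flipE_norm (j : Fin n) (x : EuclideanSpace ℝ (Fin n)) : ‖flipE j x‖ = ‖x‖ := by
  rw [EuclideanSpace.norm_eq, EuclideanSpace.norm_eq]
  congr 1
  refine Finset.sum_congr rfl fun i _ => ?_
  unfold flipE
  by_cases h : i = j
  · subst h; simp
  · simp [h]

/-- truncation -/
def tr (b : Module.Basis (Fin n) ℝ (EuclideanSpace ℝ (Fin n)))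
    (K : Set (EuclideanSpace ℝ (Fin n))) (m : ℕ) : Set (EuclideanSpace ℝ (Fin n)) :=
  K ∩ (TT b) ⁻¹' Metric.closedBall 0 m

theorem tr_iUnion (b : Module.Basis (Fin n) ℝ (EuclideanSpace ℝ (Fin n)))
    (K : Set (EuclideanSpace ℝ (Fin n))) : ⋃ m, tr b K m = K := by
  ext x
  rw [Set.mem_iUnion]
  constructor
  · rintro ⟨m, hm⟩; exact hm.1
  · intro hx
    obtain ⟨m, hm⟩ := exists_nat_ge ‖TT b x‖
    exact ⟨m, hx, by rw [Set.mem_preimage, mem_closedBall_zero_iff]; exact hm⟩

theorem tr_mono (b : Module.Basis (Fin n) ℝ (EuclideanSpace ℝ (Fin n)))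
    (K : Set (EuclideanSpace ℝ (Fin n))) : Monotone (tr b K) := by
  intro m m' h x hx
  refine ⟨hx.1, ?_⟩
  have := hx.2
  rw [Set.mem_preimage, mem_closedBall_zero_iff] at this ⊢
  exact this.trans (by exact_mod_cast h)

theorem b_main (hn : 2 ≤ n) (b : Module.Basis (Fin n) ℝ (EuclideanSpace ℝ (Fin n)))
    {f : EuclideanSpace ℝ (Fin n) → ℝ} (hf : GoodDensity b f)
    {K : Set (EuclideanSpace ℝ (Fin n))} (vK : Convex ℝ K)
    (sK : ∀ x ∈ K, -x ∈ K) (rK : RefB b K) (p q : ℝ) {t : ℝ}
    (h0 : 0 < t) (h1 : t < 1) :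
    mf f (Real.exp p • K) ^ (1 - t) * mf f (Real.exp q • K) ^ t ≤
      mf f (Real.exp ((1 - t) * p + t * q) • K) := by
  have hlim : ∀ c : ℝ, Tendsto (fun m => mf f (c • tr b K m)) atTop (𝓝 (mf f (c • K))) := by
    intro c
    have h2 : ⋃ m, c • tr b K m = c • K := by
      rw [← Set.smul_set_iUnion, tr_iUnion]
    rw [← h2]
    exact tendsto_measure_iUnion_atTop fun m m' h => Set.smul_set_mono (tr_mono b K h)
  have hm : ∀ m, mf f (Real.exp p • tr b K m) ^ (1 - t) * mf f (Real.exp q • tr b K m) ^ t ≤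
      mf f (Real.exp ((1 - t) * p + t * q) • K) := by
    intro m
    refine (b_bdd hn b hf (K := tr b K m) ?_ ?_ ?_ ?_ p q h0 h1).trans
      (measure_mono (Set.smul_set_mono Set.inter_subset_left))
    · refine vK.inter ?_
      exact (convex_closedBall (0 : EuclideanSpace ℝ (Fin n)) m).linear_preimage
        ((TT b : EuclideanSpace ℝ (Fin n) ≃L[ℝ] EuclideanSpace ℝ (Fin n)) :
          EuclideanSpace ℝ (Fin n) →ₗ[ℝ] EuclideanSpace ℝ (Fin n))
    · refine Bornology.IsBounded.subset ?_ Set.inter_subset_right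
      have : (TT b) ⁻¹' Metric.closedBall 0 (m : ℝ) =
          (TT b).symm '' Metric.closedBall 0 (m : ℝ) := by
        ext x
        constructor
        · intro hx
          exact ⟨TT b x, hx, (TT b).symm_apply_apply x⟩
        · rintro ⟨y, hy, rfl⟩
          simpa using hy
      rw [this]
      exact ((isCompact_closedBall (0 : EuclideanSpace ℝ (Fin n)) (m : ℝ)).image
        (TT b).symm.continuous).isBounded
    · intro x hx
      refine ⟨sK x hx.1, ?_⟩
      have := hx.2
      rw [Set.mem_preimage, mem_closedBall_zero_iff] at this ⊢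
      rwa [map_neg, norm_neg]
    · intro j hj x hx
      refine ⟨rK j hj x hx.1, ?_⟩
      have := hx.2
      rw [Set.mem_preimage, mem_closedBall_zero_iff] at this ⊢
      rwa [TT_flip, flipE_norm]
  rcases eq_or_ne (mf f (Real.exp p • K)) 0 with hp | hp
  · rw [hp, ENNReal.zero_rpow_of_pos (by linarith), zero_mul]
    exact zero_le
  rcases eq_or_ne (mf f (Real.exp q • K)) 0 with hq | hq
  · rw [hq, ENNReal.zero_rpow_of_pos h0, mul_zero]
    exact zero_le
  refine le_of_tendsto' (ENNReal.Tendsto.mul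
    ((hlim (Real.exp p)).ennrpow_const (1 - t)) ?_ ((hlim (Real.exp q)).ennrpow_const t) ?_) hm
  · left
    exact (ENNReal.rpow_pos (pos_iff_ne_zero.mpr hp) · |>.ne') |> fun h => by
      rcases eq_or_ne (mf f (Real.exp p • K)) ⊤ with h2 | h2
      · rw [h2, ENNReal.top_rpow_of_pos (by linarith)]; exact ENNReal.top_ne_zero
      · exact h h2
  · left
    exact (ENNReal.rpow_pos (pos_iff_ne_zero.mpr hq) · |>.ne') |> fun h => by
      rcases eq_or_ne (mf f (Real.exp q • K)) ⊤ with h2 | h2
      · rw [h2, ENNReal.top_rpow_of_pos h0]; exact ENNReal.top_ne_zero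
      · exact h h2

end Pool.Agent.TH574.LogBM
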