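import Pool.Agent.TH574.LogBM.Transport

set_option autoImplicit false

/-!
The dimensional Brunn-Minkowski inequality for even log-concave densities, for bodies and densities
with `n - 2` reflections.
-/

open MeasureTheory Filter
open scoped Matrix Pointwise Topology ENNReal

namespace Pool.Agent.TH574.LogBM

open H354ZN

variable {n : ℕ}

theorem GoodDensity.ray {b : Module.Basis (Fin n) ℝ (EuclideanSpace ℝ (Fin n))}
    {f : EuclideanSpace ℝ (Fin n) → ℝ} (hf : GoodDensity b f) {c : ℝ} (h0 : 0 < c) (h1 : c ≤ 1)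
    (x : EuclideanSpace ℝ (Fin n)) : f x ≤ f (c • x) := by
  rcases h1.eq_or_lt with h | h
  · rw [h, one_smul]
  have h2 := hf.logc x (-x) ((1 - c) / 2) (by linarith) (by linarith)
  rw [hf.even] at h2
  have e1 : (1 - (1 - c) / 2) • x + ((1 - c) / 2) • (-x) = c • x := by
    rw [smul_neg, ← sub_eq_add_neg, ← sub_smul]
    congr 1
    ring
  rw [e1] at h2
  rcases (hf.nonneg x).eq_or_lt with h3 | h3
  · rw [← h3]; exact hf.nonneg _
  · rwa [← Real.rpow_add h3, sub_add_cancel, Real.rpow_one] at h2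

theorem GoodDensity.bdd {b : Module.Basis (Fin n) ℝ (EuclideanSpace ℝ (Fin n))}
    {f : EuclideanSpace ℝ (Fin n) → ℝ} (hf : GoodDensity b f)
    (x : EuclideanSpace ℝ (Fin n)) : f x ≤ f 0 := by
  have h2 := hf.logc x (-x) (1 / 2) (by norm_num) (by norm_num)
  rw [hf.even] at h2
  have e1 : (1 - (1 / 2 : ℝ)) • x + (1 / 2 : ℝ) • (-x) = 0 := by
    rw [smul_neg, ← sub_eq_add_neg, ← sub_smul]
    norm_num
  rw [e1] at h2
  rcases (hf.nonneg x).eq_or_lt with h3 | h3
  · rw [← h3]; exact hf.nonneg _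
  · rwa [← Real.rpow_add h3, sub_add_cancel, Real.rpow_one] at h2

theorem GoodDensity.intOn {b : Module.Basis (Fin n) ℝ (EuclideanSpace ℝ (Fin n))}
    {f : EuclideanSpace ℝ (Fin n) → ℝ} (hf : GoodDensity b f)
    {K : Set (EuclideanSpace ℝ (Fin n))} (hK : IsCompact K) : IntegrableOn f K := by
  refine Measure.integrableOn_of_bounded (M := f 0) hK.measure_lt_top.ne
    hf.meas.aestronglyMeasurable (Eventually.of_forall fun x => ?_)
  rw [Real.norm_of_nonneg (hf.nonneg x)]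
  exact hf.bdd x

theorem GoodDensity.toReal {b : Module.Basis (Fin n) ℝ (EuclideanSpace ℝ (Fin n))}
    {f : EuclideanSpace ℝ (Fin n) → ℝ} (hf : GoodDensity b f)
    (K : Set (EuclideanSpace ℝ (Fin n))) :
    ∫ x in K, f x = (∫⁻ x in K, ENNReal.ofReal (f x)).toReal :=
  integral_eq_lintegral_of_nonneg_ae (Eventually.of_forall hf.nonneg)
    hf.meas.aestronglyMeasurable

theorem GoodDensity.int_nonneg {b : Module.Basis (Fin n) ℝ (EuclideanSpace ℝ (Fin n))}
    {f : EuclideanSpace ℝ (Fin n) → ℝ} (hf : GoodDensity b f)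
    (K : Set (EuclideanSpace ℝ (Fin n))) : 0 ≤ ∫ x in K, f x :=
  integral_nonneg hf.nonneg

theorem GoodDensity.lt_top {b : Module.Basis (Fin n) ℝ (EuclideanSpace ℝ (Fin n))}
    {f : EuclideanSpace ℝ (Fin n) → ℝ} (hf : GoodDensity b f)
    {K : Set (EuclideanSpace ℝ (Fin n))} (hK : IsCompact K) :
    ∫⁻ x in K, ENNReal.ofReal (f x) < ⊤ := by
  calc ∫⁻ x in K, ENNReal.ofReal (f x) ≤ ∫⁻ x in K, ENNReal.ofReal (f 0) :=
        lintegral_mono fun x => ENNReal.ofReal_le_ofReal (hf.bdd x)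
    _ = ENNReal.ofReal (f 0) * volume K := by
        rw [lintegral_const, Measure.restrict_apply_univ]
    _ < ⊤ := ENNReal.mul_lt_top ENNReal.ofReal_lt_top hK.measure_lt_top

theorem mes_real (hn : 2 ≤ n) (b : Module.Basis (Fin n) ℝ (EuclideanSpace ℝ (Fin n)))
    {f : EuclideanSpace ℝ (Fin n) → ℝ} (hf : GoodDensity b f)
    {K L : Set (EuclideanSpace ℝ (Fin n))} (hK : SB K) (hL : SB L) (rK : RefB b K)
    (rL : RefB b L) {t : ℝ} (h0 : 0 < t) (h1 : t < 1) :
    (∫ x in K, f x) ^ (1 - t) * (∫ x in L, f x) ^ t ≤ ∫ x in LC K L t, f x := by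
  have hM : SB (LC K L t) := (a_LCS n K L t hK hL h0.le h1.le).2.1
  have h := mes_basis hn b hf hK hL rK rL h0 h1
  have h2 := ENNReal.toReal_mono (hf.lt_top hM.comp).ne h
  rw [ENNReal.toReal_mul, ← ENNReal.toReal_rpow, ← ENNReal.toReal_rpow] at h2
  rwa [hf.toReal, hf.toReal, hf.toReal]

/-- dilations by `c ≤ 1` -/
theorem dil {b : Module.Basis (Fin n) ℝ (EuclideanSpace ℝ (Fin n))}
    {f : EuclideanSpace ℝ (Fin n) → ℝ} (hf : GoodDensity b f)
    {K : Set (EuclideanSpace ℝ (Fin n))} (hK : IsCompact K) {c : ℝ} (h0 : 0 < c) (h1 : c ≤ 1) :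
    c ^ n * ∫ x in K, f x ≤ ∫ x in c • K, f x := by
  have h2 := Measure.setIntegral_comp_smul (volume : Measure (EuclideanSpace ℝ (Fin n))) f
    (s := K) h0.ne'
  rw [finrank_euclideanSpace_fin, abs_of_pos (by positivity), smul_eq_mul] at h2
  have h3 : ∫ x in K, f x ≤ ∫ x in K, f (c • x) := by
    refine setIntegral_mono (hf.intOn hK) ?_ fun x => hf.ray h0 h1 x
    refine Measure.integrableOn_of_bounded (M := f 0) hK.measure_lt_top.ne
      (hf.meas.comp (measurable_const_smul c)).aestronglyMeasurable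
      (Eventually.of_forall fun x => ?_)
    rw [Real.norm_of_nonneg (hf.nonneg _)]
    exact hf.bdd _
  rw [h2] at h3
  calc c ^ n * ∫ x in K, f x ≤ c ^ n * ((c ^ n)⁻¹ * ∫ x in c • K, f x) :=
        mul_le_mul_of_nonneg_left h3 (by positivity)
    _ = _ := by
        rw [← mul_assoc, mul_inv_cancel₀ (by positivity), one_mul]

theorem RefB_smul {b : Module.Basis (Fin n) ℝ (EuclideanSpace ℝ (Fin n))}
    {K : Set (EuclideanSpace ℝ (Fin n))} (rK : RefB b K) {c : ℝ} : RefB b (c • K) := by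
  rintro j hj _ ⟨x, hx, rfl⟩
  refine ⟨_, rK j hj x hx, ?_⟩
  simp only [map_smul, Finsupp.smul_apply, smul_eq_mul, smul_sub, smul_smul]
  congr 2
  ring

theorem LC_smul {K L : Set (EuclideanSpace ℝ (Fin n))} (hK : SB K) (hL : SB L) {a c t : ℝ}
    (ha : 0 < a) (hc : 0 < c) :
    LC (a • K) (c • L) t = (a ^ (1 - t) * c ^ t) • LC K L t := by
  have hPK := (t_HH n K hK).1
  have hPL := (t_HH n L hL).1
  have hd : 0 < a ^ (1 - t) * c ^ t := by positivity
  ext x
  rw [Set.mem_smul_set_iff_inv_smul_mem₀ hd.ne']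
  unfold LC Wu
  show (∀ u : EuclideanSpace ℝ (Fin n), u ≠ 0 → inner ℝ x u ≤
        hh (a • K) u ^ (1 - t) * hh (c • L) u ^ t) ↔
      ∀ u : EuclideanSpace ℝ (Fin n), u ≠ 0 →
        inner ℝ ((a ^ (1 - t) * c ^ t)⁻¹ • x) u ≤ hh K u ^ (1 - t) * hh L u ^ t
  refine forall_congr' fun u => forall_congr' fun hu => ?_
  rw [LCE_hh K ha, LCE_hh L hc, Real.mul_rpow ha.le (hPK.pos u hu).le,
    Real.mul_rpow hc.le (hPL.pos u hu).le, real_inner_smul_left, inv_mul_le_iff₀ hd]
  have e1 : a ^ (1 - t) * hh K u ^ (1 - t) * (c ^ t * hh L u ^ t) =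
      a ^ (1 - t) * c ^ t * (hh K u ^ (1 - t) * hh L u ^ t) := by ring
  rw [e1]

theorem mono_int {b : Module.Basis (Fin n) ℝ (EuclideanSpace ℝ (Fin n))}
    {f : EuclideanSpace ℝ (Fin n) → ℝ} (hf : GoodDensity b f)
    {K L : Set (EuclideanSpace ℝ (Fin n))} (hL : IsCompact L) (h : K ⊆ L) :
    ∫ x in K, f x ≤ ∫ x in L, f x :=
  setIntegral_mono_set (hf.intOn hL) (Eventually.of_forall hf.nonneg) h.eventuallyLE

theorem dim_SB (hn : 2 ≤ n) (b : Module.Basis (Fin n) ℝ (EuclideanSpace ℝ (Fin n)))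
    {f : EuclideanSpace ℝ (Fin n) → ℝ} (hf : GoodDensity b f)
    {A B : Set (EuclideanSpace ℝ (Fin n))} (hA : SB A) (hB : SB B) (rA : RefB b A)
    (rB : RefB b B) {t : ℝ} (h0 : 0 < t) (h1 : t < 1) (pA : 0 < ∫ x in A, f x)
    (pB : 0 < ∫ x in B, f x) :
    (1 - t) * (∫ x in A, f x) ^ (1 / (n : ℝ)) + t * (∫ x in B, f x) ^ (1 / (n : ℝ)) ≤
      (∫ x in (1 - t) • A + t • B, f x) ^ (1 / (n : ℝ)) := by
  have hn0 : (0 : ℝ) < n := by
    have : 0 < n := by omega
    exact_mod_cast this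
  set α := (∫ x in A, f x) ^ (1 / (n : ℝ)) with hα
  set β := (∫ x in B, f x) ^ (1 / (n : ℝ)) with hβ
  have hα0 : 0 < α := Real.rpow_pos_of_pos pA _
  have hβ0 : 0 < β := Real.rpow_pos_of_pos pB _
  set D := (1 - t) * α + t * β with hD
  have h1t : 0 < 1 - t := by linarith
  have hD0 : 0 < D := by positivity
  set s := t * β / D with hs
  have hs0 : 0 < s := by positivity
  have hs1 : 1 - s = (1 - t) * α / D := by
    rw [hs, eq_div_iff hD0.ne', sub_mul, one_mul, div_mul_cancel₀ _ hD0.ne', hD]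
    ring
  have hs1' : 0 < 1 - s := by rw [hs1]; positivity
  set a := (1 - t) / (1 - s) with ha
  set c := t / s with hc
  have ha0 : 0 < a := by positivity
  have hc0 : 0 < c := by positivity
  set d := a ^ (1 - s) * c ^ s with hd
  have hd0 : 0 < d := by positivity
  have hd1 : d ≤ 1 := by
    have := Real.geom_mean_le_arith_mean2_weighted hs1'.le hs0.le ha0.le hc0.le (by ring)
    calc d ≤ (1 - s) * a + s * c := this
      _ = 1 := by
        rw [ha, hc, mul_div_cancel₀ _ hs1'.ne', mul_div_cancel₀ _ hs0.ne']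
        ring
  have hM : SB (LC A B s) := (a_LCS n A B s hA hB hs0.le (by linarith)).2.1
  have hsub : LC (a • A) (c • B) s ⊆ (1 - t) • A + t • B := by
    intro x hx
    obtain ⟨y, ⟨y', hy, rfl⟩, z, ⟨z', hz, rfl⟩, rfl⟩ :=
      t_LCM t_HH n (a • A) (c • B) s (LCE_SB hA ha0) (LCE_SB hB hc0) hs0 (by linarith) hx
    refine Set.add_mem_add ⟨y', hy, ?_⟩ ⟨z', hz, ?_⟩
    · show (1 - t) • y' = (1 - s) • (a • y')
      rw [smul_smul, ha, mul_div_cancel₀ _ hs1'.ne']
    · show t • z' = s • (c • z')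
      rw [smul_smul, hc, mul_div_cancel₀ _ hs0.ne']
  rw [LC_smul hA hB ha0 hc0] at hsub
  have hcomp : IsCompact ((1 - t) • A + t • B) := (hA.comp.smul _).add (hB.comp.smul _)
  have h2 : d ^ n * ((∫ x in A, f x) ^ (1 - s) * (∫ x in B, f x) ^ s) ≤
      ∫ x in (1 - t) • A + t • B, f x := by
    calc d ^ n * ((∫ x in A, f x) ^ (1 - s) * (∫ x in B, f x) ^ s)
        ≤ d ^ n * ∫ x in LC A B s, f x :=
          mul_le_mul_of_nonneg_left (mes_real hn b hf hA hB rA rB hs0 (by linarith))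
            (by positivity)
      _ ≤ ∫ x in d • LC A B s, f x := dil hf hM.comp hd0 hd1
      _ ≤ _ := mono_int hf hcomp hsub
  have h3 : D ^ n = d ^ n * ((∫ x in A, f x) ^ (1 - s) * (∫ x in B, f x) ^ s) := by
    have eA : (∫ x in A, f x) = α ^ n := by
      rw [hα, ← Real.rpow_natCast, ← Real.rpow_mul pA.le, one_div_mul_cancel hn0.ne',
        Real.rpow_one]
    have eB : (∫ x in B, f x) = β ^ n := by
      rw [hβ, ← Real.rpow_natCast, ← Real.rpow_mul pB.le, one_div_mul_cancel hn0.ne',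
        Real.rpow_one]
    rw [eA, eB]
    have e1 : (α ^ n) ^ (1 - s) = (α ^ (1 - s)) ^ n := by
      rw [← Real.rpow_natCast, ← Real.rpow_natCast, ← Real.rpow_mul hα0.le,
        ← Real.rpow_mul hα0.le, mul_comm]
    have e2 : (β ^ n) ^ s = (β ^ s) ^ n := by
      rw [← Real.rpow_natCast, ← Real.rpow_natCast, ← Real.rpow_mul hβ0.le,
        ← Real.rpow_mul hβ0.le, mul_comm]
    rw [e1, e2, ← mul_pow, ← mul_pow]
    congr 1
    have e3 : a * α = D := by
      rw [ha, hs1]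
      field_simp
    have e4 : c * β = D := by
      rw [hc, hs]
      field_simp
    calc D = D ^ (1 - s) * D ^ s := by
          rw [← Real.rpow_add hD0, sub_add_cancel, Real.rpow_one]
      _ = (a * α) ^ (1 - s) * (c * β) ^ s := by rw [e3, e4]
      _ = _ := by
          rw [Real.mul_rpow ha0.le hα0.le, Real.mul_rpow hc0.le hβ0.le, hd]
          ring
  rw [← h3] at h2
  have h4 := Real.rpow_le_rpow (by positivity) h2 (by positivity : (0:ℝ) ≤ 1 / (n : ℝ))
  rwa [← Real.rpow_natCast, ← Real.rpow_mul hD0.le, mul_one_div_cancel hn0.ne',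
    Real.rpow_one] at h4

/-- a compact convex symmetric set of positive measure is a symmetric body -/
theorem SB_of_pos {b : Module.Basis (Fin n) ℝ (EuclideanSpace ℝ (Fin n))}
    {f : EuclideanSpace ℝ (Fin n) → ℝ} (_hf : GoodDensity b f)
    {A : Set (EuclideanSpace ℝ (Fin n))} (cA : IsCompact A) (vA : Convex ℝ A)
    (sA : ∀ x ∈ A, -x ∈ A) (pA : 0 < ∫ x in A, f x) : SB A := by
  have h1 : 0 < volume A := by
    rw [pos_iff_ne_zero]
    intro h
    rw [setIntegral_measure_zero f h] at pA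
    exact lt_irrefl _ pA
  have h2 := (t_CLB n A vA cA.isBounded sA h1).1
  rwa [cA.isClosed.closure_eq] at h2

theorem dim_main (hn : 2 ≤ n) (b : Module.Basis (Fin n) ℝ (EuclideanSpace ℝ (Fin n)))
    {f : EuclideanSpace ℝ (Fin n) → ℝ} (hf : GoodDensity b f)
    {A B : Set (EuclideanSpace ℝ (Fin n))} (nA : A.Nonempty) (nB : B.Nonempty)
    (cA : IsCompact A) (cB : IsCompact B) (vA : Convex ℝ A) (vB : Convex ℝ B)
    (sA : ∀ x ∈ A, -x ∈ A) (sB : ∀ x ∈ B, -x ∈ B) (rA : RefB b A)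
    (rB : RefB b B) {t : ℝ} (h0 : 0 ≤ t) (h1 : t ≤ 1) :
    (1 - t) * (∫ x in A, f x) ^ (1 / (n : ℝ)) + t * (∫ x in B, f x) ^ (1 / (n : ℝ)) ≤
      (∫ x in (1 - t) • A + t • B, f x) ^ (1 / (n : ℝ)) := by
  have hn0 : (0 : ℝ) < n := by
    have : 0 < n := by omega
    exact_mod_cast this
  have hcomp : IsCompact ((1 - t) • A + t • B) := (cA.smul _).add (cB.smul _)
  have hzero : ∀ S : Set (EuclideanSpace ℝ (Fin n)), S.Nonempty → Convex ℝ S →
      (∀ x ∈ S, -x ∈ S) → (0 : EuclideanSpace ℝ (Fin n)) ∈ S := by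
    rintro S ⟨x, hx⟩ hS hs
    have := hS hx (hs x hx) (by norm_num : (0:ℝ) ≤ 1/2) (by norm_num : (0:ℝ) ≤ 1/2) (by norm_num)
    rwa [smul_neg, add_neg_cancel] at this
  -- one-sided bounds
  have one : ∀ (S : Set (EuclideanSpace ℝ (Fin n))) (c : ℝ), IsCompact S → 0 ≤ c → c ≤ 1 →
      c • S ⊆ (1 - t) • A + t • B →
      c * (∫ x in S, f x) ^ (1 / (n : ℝ)) ≤ (∫ x in (1 - t) • A + t • B, f x) ^ (1 / (n : ℝ)) := by
    intro S c hS hc0 hc1 hsub
    rcases hc0.eq_or_lt with h | h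
    · rw [← h, zero_mul]
      exact Real.rpow_nonneg (hf.int_nonneg _) _
    have h2 := (dil hf hS h hc1).trans (mono_int hf hcomp hsub)
    have h3 := Real.rpow_le_rpow (mul_nonneg (by positivity) (hf.int_nonneg _)) h2
      (by positivity : (0:ℝ) ≤ 1 / (n : ℝ))
    rwa [Real.mul_rpow (by positivity) (hf.int_nonneg _), ← Real.rpow_natCast,
      ← Real.rpow_mul h.le, mul_one_div_cancel hn0.ne', Real.rpow_one] at h3
  have subA : (1 - t) • A ⊆ (1 - t) • A + t • B := by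
    intro x hx
    exact ⟨x, hx, 0, ⟨0, hzero B nB vB sB, smul_zero t⟩, add_zero x⟩
  have subB : t • B ⊆ (1 - t) • A + t • B := by
    intro x hx
    exact ⟨0, ⟨0, hzero A nA vA sA, smul_zero _⟩, x, hx, zero_add x⟩
  have zpow : (0 : ℝ) ^ (1 / (n : ℝ)) = 0 := Real.zero_rpow (by positivity)
  rcases (hf.int_nonneg A).eq_or_lt with pA | pA
  · rw [← pA, zpow, mul_zero, zero_add]
    exact one B t cB h0 h1 subB
  rcases (hf.int_nonneg B).eq_or_lt with pB | pB
  · rw [← pB, zpow, mul_zero, add_zero]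
    exact one A (1 - t) cA (by linarith) (by linarith) subA
  rcases h0.eq_or_lt with ht | ht
  · rw [← ht] at subA ⊢
    have := one A 1 cA zero_le_one le_rfl (by rw [← ht]; simpa using subA)
    rw [← ht] at this
    simpa using this
  rcases h1.eq_or_lt with ht1 | ht1
  · have := one B 1 cB zero_le_one le_rfl (by rw [ht1] at subB ⊢; exact subB)
    rw [ht1] at this ⊢
    simpa using this
  exact dim_SB hn b hf (SB_of_pos hf cA vA sA pA) (SB_of_pos hf cB vB sB pB) rA rB ht ht1 pA pB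

end Pool.Agent.TH574.LogBM
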