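import Pool.Agent.TH574.LogBM.Transport

set_option autoImplicit false

open MeasureTheory Filter
open scoped Matrix Pointwise Topology ENNReal

namespace Pool.Agent.TH574.LogBM

open H354ZN

variable {n : ℕ}

theorem bm_basis (hn : 2 ≤ n) (b : Module.Basis (Fin n) ℝ (EuclideanSpace ℝ (Fin n)))
    {K L : Set (EuclideanSpace ℝ (Fin n))} (hK : SB K) (hL : SB L) (rK : RefB b K)
    (rL : RefB b L) {t : ℝ} (ht0 : 0 ≤ t) (ht1 : t ≤ 1) :
    (volume K).toReal ^ (1 - t) * (volume L).toReal ^ t ≤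
      (volume {x : EuclideanSpace ℝ (Fin n) | ∀ u : EuclideanSpace ℝ (Fin n), ‖u‖ = 1 →
        inner ℝ x u ≤ (sSup ((fun y => inner ℝ y u) '' K)) ^ (1 - t) *
          (sSup ((fun y => inner ℝ y u) '' L)) ^ t}).toReal := by
  obtain ⟨pK, wK, vK, fK, -⟩ := t_HH n K hK
  obtain ⟨pL, wL, vL, fL, -⟩ := t_HH n L hL
  rw [bmr_set K L t ht0 ht1 pK pL]
  rcases ht0.eq_or_lt with h | h0
  · subst h
    have : LC K L 0 = K := by
      conv_rhs => rw [← wK]
      unfold LC
      congr 1
      funext u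
      simp
    rw [this]
    simp
  rcases ht1.eq_or_lt with h | h1
  · subst h
    have : LC K L 1 = L := by
      conv_rhs => rw [← wL]
      unfold LC
      congr 1
      funext u
      simp
    rw [this]
    simp
  have key := lb_basis hn b hK hL rK rL h0 h1
  have h2 := ENNReal.toReal_mono (bmr_fin K L t ht0 ht1 hK hL pK pL).ne key
  rwa [ENNReal.toReal_mul, ← ENNReal.toReal_rpow, ← ENNReal.toReal_rpow] at h2

end Pool.Agent.TH574.LogBM
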