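import Pool.Agent.TH574.LogBM.Transport

set_option autoImplicit false

open MeasureTheory Filter
open scoped Matrix Pointwise Topology ENNReal

namespace Pool.Agent.TH574.LogBM

open H354ZN

variable {n : ℕ}

/-- passing from unit vectors to all nonzero vectors -/
theorem unit_eq_Wu (φ : ℝ → ℝ → ℝ) (hφ : ∀ r a c : ℝ, 0 < r → 0 < a → 0 < c →
      φ (r * a) (r * c) = r * φ a c)
    {K C : Set (EuclideanSpace ℝ (Fin n))} (hK : PH (hh K)) (hC : PH (hh C)) :
    {x : EuclideanSpace ℝ (Fin n) | ∀ u : EuclideanSpace ℝ (Fin n), ‖u‖ = 1 →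
      inner ℝ x u ≤ φ (hh K u) (hh C u)} = Wu (fun u => φ (hh K u) (hh C u)) := by
  ext x
  constructor
  · intro hx u hu
    have hpos : 0 < ‖u‖ := norm_pos_iff.mpr hu
    have h1 : ‖(‖u‖⁻¹ • u)‖ = 1 := by
      rw [norm_smul, norm_inv, norm_norm, inv_mul_cancel₀ hpos.ne']
    have h2 := hx _ h1
    rw [hK.hom _ _ (inv_ne_zero hpos.ne'), hC.hom _ _ (inv_ne_zero hpos.ne'), inner_smul_right,
      abs_of_pos (inv_pos.mpr hpos), hφ _ _ _ (inv_pos.mpr hpos) (hK.pos u hu) (hC.pos u hu)] at h2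
    exact le_of_mul_le_mul_left h2 (inv_pos.mpr hpos)
  · intro hx u hu
    refine hx u ?_
    intro h0
    rw [h0, norm_zero] at hu
    exact zero_ne_one hu

theorem phi_hom {p α β : ℝ} (hp : 0 < p) (hα : 0 < α) (hβ : 0 < β) (r a c : ℝ) (hr : 0 < r)
    (ha : 0 < a) (hc : 0 < c) :
    (α * (r * a) ^ p + β * (r * c) ^ p) ^ (1 / p) = r * (α * a ^ p + β * c ^ p) ^ (1 / p) := by
  rw [Real.mul_rpow hr.le ha.le, Real.mul_rpow hr.le hc.le]
  have e1 : α * (r ^ p * a ^ p) + β * (r ^ p * c ^ p) = r ^ p * (α * a ^ p + β * c ^ p) := by ring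
  rw [e1, Real.mul_rpow (by positivity) (by positivity), ← Real.rpow_mul hr.le,
    mul_one_div_cancel hp.ne', Real.rpow_one]

theorem lp_basis (hn : 2 ≤ n) (b : Module.Basis (Fin n) ℝ (EuclideanSpace ℝ (Fin n)))
    {K C : Set (EuclideanSpace ℝ (Fin n))} (hK : SB K) (hC : SB C) (rK : RefB b K)
    (rC : RefB b C) {p α β : ℝ} (h0 : 0 < p) (h1 : p < 1) (hα : 0 < α) (hβ : 0 < β) :
    α * (volume K).toReal ^ (p / n) + β * (volume C).toReal ^ (p / n) ≤
      (volume {x : EuclideanSpace ℝ (Fin n) | ∀ u : EuclideanSpace ℝ (Fin n), ‖u‖ = 1 →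
        inner ℝ x u ≤ (α * hh K u ^ p + β * hh C u ^ p) ^ (1 / p)}).toReal ^ (p / n) ∧
    ((volume {x : EuclideanSpace ℝ (Fin n) | ∀ u : EuclideanSpace ℝ (Fin n), ‖u‖ = 1 →
        inner ℝ x u ≤ (α * hh K u ^ p + β * hh C u ^ p) ^ (1 / p)}).toReal ^ (p / n) =
      α * (volume K).toReal ^ (p / n) + β * (volume C).toReal ^ (p / n) ↔
        ∃ t : ℝ, 0 < t ∧ C = (fun x : EuclideanSpace ℝ (Fin n) => t • x) '' K) := by
  set T := TT b with hT
  have h := a_LPR n (T '' K) (T '' C) p α β hn (SB_image _ hK) (SB_image _ hC) (Ref_image b rK)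
    (Ref_image b rC) h0 h1 hα hβ
  have eφ := fun r a c hr ha hc => phi_hom (p := p) h0 hα hβ r a c hr ha hc
  have e1 := unit_eq_Wu (fun a c => (α * a ^ p + β * c ^ p) ^ (1 / p)) eφ
    (t_HH n _ hK).1 (t_HH n _ hC).1
  have e2 := unit_eq_Wu (fun a c => (α * a ^ p + β * c ^ p) ^ (1 / p)) eφ
    (t_HH n _ (SB_image T hK)).1 (t_HH n _ (SB_image T hC)).1
  have e3 := Wu_image T (fun a c => (α * a ^ p + β * c ^ p) ^ (1 / p)) K C
  rw [e2, e3] at h
  rw [e1]
  set W := Wu (fun u => (α * hh K u ^ p + β * hh C u ^ p) ^ (1 / p)) with hW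
  rw [vol_image, vol_image, vol_image, ENNReal.toReal_mul, ENNReal.toReal_mul,
    ENNReal.toReal_mul] at h
  have hd : 0 < (dT T).toReal := ENNReal.toReal_pos (dT_ne_zero _) (dT_ne_top _)
  rw [Real.mul_rpow hd.le ENNReal.toReal_nonneg, Real.mul_rpow hd.le ENNReal.toReal_nonneg,
    Real.mul_rpow hd.le ENNReal.toReal_nonneg] at h
  have hd' : 0 < (dT T).toReal ^ (p / n) := Real.rpow_pos_of_pos hd _
  have e4 : α * ((dT T).toReal ^ (p / n) * (volume K).toReal ^ (p / n)) +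
      β * ((dT T).toReal ^ (p / n) * (volume C).toReal ^ (p / n)) =
      (dT T).toReal ^ (p / n) * (α * (volume K).toReal ^ (p / n) +
        β * (volume C).toReal ^ (p / n)) := by ring
  rw [e4] at h
  refine ⟨le_of_mul_le_mul_left h.1 hd', ?_⟩
  rw [← mul_right_inj' hd'.ne', h.2]
  constructor
  · rintro ⟨t, ht, he⟩
    refine ⟨t, ht, ?_⟩
    have h5 : T '' C = T '' ((fun x : EuclideanSpace ℝ (Fin n) => t • x) '' K) := by
      rw [he, Set.image_image, Set.image_image]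
      simp only [map_smul]
    exact (Set.image_injective.mpr T.injective) h5
  · rintro ⟨t, ht, he⟩
    refine ⟨t, ht, ?_⟩
    rw [he, Set.image_image, Set.image_image]
    simp only [map_smul]

end Pool.Agent.TH574.LogBM
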