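import Pool.Agent.H354R3.ZN.All3

set_option autoImplicit false

/-!
Transport of the theorems of `Pool.Agent.H354R3.ZN` to reflections with respect to an arbitrary
basis.
-/

open MeasureTheory Filter
open scoped Matrix Pointwise Topology ENNReal

namespace Pool.Agent.TH574.LogBM

open H354ZN

variable {n : ℕ}

/-- `K` is invariant under the linear reflections `b j ↦ - b j`, `j ≥ 2`. -/
def RefB (b : Module.Basis (Fin n) ℝ (EuclideanSpace ℝ (Fin n)))
    (K : Set (EuclideanSpace ℝ (Fin n))) : Prop :=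
  ∀ j : Fin n, 2 ≤ (j : ℕ) → ∀ x ∈ K, x - (2 * b.repr x j) • b j ∈ K

/-- the linear map which takes the basis `b` to the standard basis -/
noncomputable def TT (b : Module.Basis (Fin n) ℝ (EuclideanSpace ℝ (Fin n))) :
    EuclideanSpace ℝ (Fin n) ≃L[ℝ] EuclideanSpace ℝ (Fin n) :=
  (b.equivFun.trans (WithLp.linearEquiv 2 ℝ (Fin n → ℝ)).symm).toContinuousLinearEquiv

theorem TT_apply (b : Module.Basis (Fin n) ℝ (EuclideanSpace ℝ (Fin n)))
    (x : EuclideanSpace ℝ (Fin n)) (i : Fin n) : (TT b x).ofLp i = b.repr x i := by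
  simp [TT]

theorem TT_flip (b : Module.Basis (Fin n) ℝ (EuclideanSpace ℝ (Fin n))) (j : Fin n)
    (x : EuclideanSpace ℝ (Fin n)) :
    TT b (x - (2 * b.repr x j) • b j) = flipE j (TT b x) := by
  ext i
  rw [TT_apply]
  unfold flipE
  by_cases h : i = j
  · subst h
    simp [TT_apply]
    ring
  · simp [TT_apply, h]

theorem SB_image (T : EuclideanSpace ℝ (Fin n) ≃L[ℝ] EuclideanSpace ℝ (Fin n))
    {K : Set (EuclideanSpace ℝ (Fin n))} (hK : SB K) : SB (T '' K) where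
  conv := hK.conv.linear_image (T : EuclideanSpace ℝ (Fin n) →ₗ[ℝ] EuclideanSpace ℝ (Fin n))
  comp := hK.comp.image T.continuous
  zero := by
    have h1 : interior (T '' K) = T '' interior K := (T.toHomeomorph.image_interior K).symm
    rw [h1]
    exact ⟨0, hK.zero, map_zero _⟩
  symm := by
    rintro _ ⟨x, hx, rfl⟩
    exact ⟨-x, hK.symm x hx, map_neg _ _⟩

theorem Ref_image (b : Module.Basis (Fin n) ℝ (EuclideanSpace ℝ (Fin n)))
    {K : Set (EuclideanSpace ℝ (Fin n))} (hK : RefB b K) : Ref (TT b '' K) := by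
  rintro j hj _ ⟨x, hx, rfl⟩
  exact ⟨_, hK j hj x hx, TT_flip b j x⟩

/-- the adjoint -/
noncomputable def adj (T : EuclideanSpace ℝ (Fin n) ≃L[ℝ] EuclideanSpace ℝ (Fin n)) :
    EuclideanSpace ℝ (Fin n) →L[ℝ] EuclideanSpace ℝ (Fin n) :=
  ContinuousLinearMap.adjoint
    (T : EuclideanSpace ℝ (Fin n) →L[ℝ] EuclideanSpace ℝ (Fin n))

theorem inner_adj (T : EuclideanSpace ℝ (Fin n) ≃L[ℝ] EuclideanSpace ℝ (Fin n))
    (x u : EuclideanSpace ℝ (Fin n)) : inner ℝ (T x) u = inner ℝ x (adj T u) := by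
  unfold adj
  rw [ContinuousLinearMap.adjoint_inner_right]
  rfl

theorem adj_symm (T : EuclideanSpace ℝ (Fin n) ≃L[ℝ] EuclideanSpace ℝ (Fin n))
    (v : EuclideanSpace ℝ (Fin n)) : adj T (adj T.symm v) = v := by
  apply ext_inner_left ℝ
  intro x
  rw [← inner_adj, ← inner_adj, T.symm_apply_apply]

theorem adj_ne (T : EuclideanSpace ℝ (Fin n) ≃L[ℝ] EuclideanSpace ℝ (Fin n))
    {v : EuclideanSpace ℝ (Fin n)} (hv : v ≠ 0) : adj T v ≠ 0 := by
  intro h
  have h1 : adj T.symm (adj T v) = v := by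
    have := adj_symm T.symm v
    rwa [ContinuousLinearEquiv.symm_symm] at this
  rw [h, map_zero] at h1
  exact hv h1.symm

theorem hh_image (T : EuclideanSpace ℝ (Fin n) ≃L[ℝ] EuclideanSpace ℝ (Fin n))
    (K : Set (EuclideanSpace ℝ (Fin n))) (u : EuclideanSpace ℝ (Fin n)) :
    hh (T '' K) u = hh K (adj T u) := by
  unfold hh
  rw [Set.image_image]
  congr 1
  ext r
  constructor
  · rintro ⟨y, hy, rfl⟩
    exact ⟨y, hy, (inner_adj T y u).symm⟩
  · rintro ⟨y, hy, rfl⟩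
    exact ⟨y, hy, inner_adj T y u⟩

theorem Wu_image (T : EuclideanSpace ℝ (Fin n) ≃L[ℝ] EuclideanSpace ℝ (Fin n))
    (φ : ℝ → ℝ → ℝ) (K L : Set (EuclideanSpace ℝ (Fin n))) :
    Wu (fun u => φ (hh (T '' K) u) (hh (T '' L) u)) = T '' Wu (fun u => φ (hh K u) (hh L u)) := by
  ext y
  constructor
  · intro hy
    refine ⟨T.symm y, ?_, T.apply_symm_apply y⟩
    intro v hv
    have h1 := hy (adj T.symm v) (adj_ne _ hv)
    beta_reduce at h1 ⊢
    rw [hh_image, hh_image, adj_symm] at h1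
    rwa [inner_adj]
  · rintro ⟨x, hx, rfl⟩ u hu
    have h1 := hx _ (adj_ne T hu)
    beta_reduce at h1 ⊢
    rw [hh_image, hh_image, inner_adj]
    exact h1

theorem LC_image (T : EuclideanSpace ℝ (Fin n) ≃L[ℝ] EuclideanSpace ℝ (Fin n))
    (K L : Set (EuclideanSpace ℝ (Fin n))) (t : ℝ) :
    LC (T '' K) (T '' L) t = T '' LC K L t :=
  Wu_image T (fun a b => a ^ (1 - t) * b ^ t) K L

/-- the absolute value of the determinant -/
noncomputable def dT (T : EuclideanSpace ℝ (Fin n) ≃L[ℝ] EuclideanSpace ℝ (Fin n)) : ℝ≥0∞ :=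
  ENNReal.ofReal |LinearMap.det
    (T : EuclideanSpace ℝ (Fin n) →ₗ[ℝ] EuclideanSpace ℝ (Fin n))|

theorem dT_ne_zero (T : EuclideanSpace ℝ (Fin n) ≃L[ℝ] EuclideanSpace ℝ (Fin n)) : dT T ≠ 0 := by
  unfold dT
  rw [Ne, ENNReal.ofReal_eq_zero, not_le, abs_pos]
  exact (LinearEquiv.isUnit_det' T.toLinearEquiv).ne_zero

theorem dT_ne_top (T : EuclideanSpace ℝ (Fin n) ≃L[ℝ] EuclideanSpace ℝ (Fin n)) : dT T ≠ ⊤ :=
  ENNReal.ofReal_ne_top

theorem vol_image (T : EuclideanSpace ℝ (Fin n) ≃L[ℝ] EuclideanSpace ℝ (Fin n))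
    (S : Set (EuclideanSpace ℝ (Fin n))) : volume (T '' S) = dT T * volume S :=
  Measure.addHaar_image_linearMap volume
    (T : EuclideanSpace ℝ (Fin n) →ₗ[ℝ] EuclideanSpace ℝ (Fin n)) S

theorem rpow_cancel {d a b c : ℝ≥0∞} {t : ℝ} (hd0 : d ≠ 0) (hd : d ≠ ⊤) (h0 : 0 ≤ t) (h1 : t ≤ 1)
    (h : (d * a) ^ (1 - t) * (d * b) ^ t ≤ d * c) : a ^ (1 - t) * b ^ t ≤ c := by
  rw [ENNReal.mul_rpow_of_nonneg _ _ (by linarith), ENNReal.mul_rpow_of_nonneg _ _ h0] at h
  have e1 : d ^ (1 - t) * a ^ (1 - t) * (d ^ t * b ^ t) = d * (a ^ (1 - t) * b ^ t) := by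
    have e2 : d ^ (1 - t) * d ^ t = d := by
      rw [← ENNReal.rpow_add _ _ hd0 hd, sub_add_cancel, ENNReal.rpow_one]
    calc _ = (d ^ (1 - t) * d ^ t) * (a ^ (1 - t) * b ^ t) := by ring
      _ = _ := by rw [e2]
  rw [e1] at h
  exact (ENNReal.mul_le_mul_iff_right hd0 hd).mp h

theorem lb_basis (hn : 2 ≤ n) (b : Module.Basis (Fin n) ℝ (EuclideanSpace ℝ (Fin n)))
    {K L : Set (EuclideanSpace ℝ (Fin n))} (hK : SB K) (hL : SB L) (rK : RefB b K)
    (rL : RefB b L) {t : ℝ} (h0 : 0 < t) (h1 : t < 1) :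
    volume K ^ (1 - t) * volume L ^ t ≤ volume (LC K L t) := by
  have h := a_LB n hn (TT b '' K) (TT b '' L) t (SB_image _ hK) (SB_image _ hL) (Ref_image b rK)
    (Ref_image b rL) h0 h1
  rw [LC_image, vol_image, vol_image, vol_image] at h
  exact rpow_cancel (dT_ne_zero _) (dT_ne_top _) h0.le h1.le h

theorem lintegral_image (T : EuclideanSpace ℝ (Fin n) ≃L[ℝ] EuclideanSpace ℝ (Fin n))
    (K : Set (EuclideanSpace ℝ (Fin n))) (hK : MeasurableSet K)
    (f : EuclideanSpace ℝ (Fin n) → ℝ≥0∞) :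
    ∫⁻ x in T '' K, f (T.symm x) = dT T * ∫⁻ x in K, f x := by
  have h1 : Measure.map T.symm (volume : Measure (EuclideanSpace ℝ (Fin n))) = dT T • volume := by
    ext s hs
    rw [Measure.map_apply T.symm.continuous.measurable hs, Measure.smul_apply, smul_eq_mul,
      ← vol_image]
    congr 1
    ext x
    constructor
    · intro hx
      exact ⟨T.symm x, hx, T.apply_symm_apply x⟩
    · rintro ⟨y, hy, rfl⟩
      simpa using hy
  have h2 : MeasurableSet (T '' K) := (T.toHomeomorph.measurableEmbedding.measurableSet_image).mpr hK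
  rw [← lintegral_indicator h2, ← lintegral_indicator hK, ← smul_eq_mul, ← lintegral_smul_measure, ← h1]
  rw [show Measure.map (⇑T.symm) (volume : Measure (EuclideanSpace ℝ (Fin n))) =
    Measure.map (T.symm.toHomeomorph.toMeasurableEquiv) volume from rfl, lintegral_map_equiv]
  refine lintegral_congr fun x => ?_
  by_cases hx : x ∈ T '' K
  · rw [Set.indicator_of_mem hx]
    obtain ⟨y, hy, rfl⟩ := hx
    have : (T.symm.toHomeomorph.toMeasurableEquiv) (T y) = y := T.symm_apply_apply y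
    rw [this, Set.indicator_of_mem hy, T.symm_apply_apply]
  · rw [Set.indicator_of_notMem hx, Set.indicator_of_notMem]
    intro h
    exact hx ⟨T.symm x, h, T.apply_symm_apply x⟩

/-- log-concave, even, with the reflections `b j ↦ - b j`, `j ≥ 2` -/
structure GoodDensity (b : Module.Basis (Fin n) ℝ (EuclideanSpace ℝ (Fin n)))
    (f : EuclideanSpace ℝ (Fin n) → ℝ) : Prop where
  meas : Measurable f
  nonneg : ∀ x, 0 ≤ f x
  even : ∀ x, f (-x) = f x
  refl : ∀ j : Fin n, 2 ≤ (j : ℕ) → ∀ x, f (x - (2 * b.repr x j) • b j) = f x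
  logc : ∀ (x y : EuclideanSpace ℝ (Fin n)) (s : ℝ), 0 < s → s < 1 →
    f x ^ (1 - s) * f y ^ s ≤ f ((1 - s) • x + s • y)

theorem mes_basis (hn : 2 ≤ n) (b : Module.Basis (Fin n) ℝ (EuclideanSpace ℝ (Fin n)))
    {f : EuclideanSpace ℝ (Fin n) → ℝ} (hf : GoodDensity b f)
    {K L : Set (EuclideanSpace ℝ (Fin n))} (hK : SB K) (hL : SB L) (rK : RefB b K)
    (rL : RefB b L) {t : ℝ} (h0 : 0 < t) (h1 : t < 1) :
    (∫⁻ x in K, ENNReal.ofReal (f x)) ^ (1 - t) * (∫⁻ x in L, ENNReal.ofReal (f x)) ^ t ≤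
      ∫⁻ x in LC K L t, ENNReal.ofReal (f x) := by
  set T := TT b with hT
  have hM : SB (LC K L t) := (a_LCS n K L t hK hL h0.le h1.le).2.1
  have h := a_MES n (fun x => f (T.symm x)) (T '' K) (T '' L) t hn
    (hf.meas.comp T.symm.continuous.measurable) (fun x => hf.nonneg _)
    (fun x => by rw [map_neg]; exact hf.even _)
    (by
      intro j hj x
      have h2 : flipE j x = T (T.symm x - (2 * b.repr (T.symm x) j) • b j) := by
        rw [hT, TT_flip, ContinuousLinearEquiv.apply_symm_apply]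
      rw [h2, T.symm_apply_apply]
      exact hf.refl j hj _)
    (by
      intro x y s hs0 hs1
      rw [map_add, map_smul, map_smul]
      exact hf.logc _ _ s hs0 hs1)
    (SB_image _ hK) (SB_image _ hL) (Ref_image b rK) (Ref_image b rL) h0 h1
  rw [LC_image, lintegral_image T K hK.comp.measurableSet (fun x => ENNReal.ofReal (f x)),
    lintegral_image T L hL.comp.measurableSet (fun x => ENNReal.ofReal (f x)),
    lintegral_image T _ hM.comp.measurableSet (fun x => ENNReal.ofReal (f x))] at h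
  exact rpow_cancel (dT_ne_zero _) (dT_ne_top _) h0.le h1.le h

end Pool.Agent.TH574.LogBM
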